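import Pool.Agent.R972.GM.Main

/-!
# Q1: dimension-free comparison of Kullback-Leibler divergence and Hellinger distance

For every `M > 0` there is a constant `C`, depending only on `M`, such that in every dimension and
for all mixing distributions supported in the ball of radius `M`, the Kullback-Leibler divergence of
the two Gaussian mixtures is at most `C` times their squared Hellinger distance.
-/

set_option autoImplicit false

open MeasureTheory Pool.Agent.R972.GM

theorem Pool.Agent.Results.MP_ba1a3e_pr.KullbackLeibler.result :
    ∀ M : ℝ, 0 < M → ∃ C : ℝ, ∀ (d : ℕ) (π η : Measure (EuclideanSpace ℝ (Fin d))),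
      IsProbabilityMeasure π → IsProbabilityMeasure η →
      π (Metric.closedBall 0 M)ᶜ = 0 → η (Metric.closedBall 0 M)ᶜ = 0 →
      Integrable (fun x => mix π x * Real.log (mix π x / mix η x)) ∧
      ∫ x, mix π x * Real.log (mix π x / mix η x) ≤
        C * ∫ x, (Real.sqrt (mix π x) - Real.sqrt (mix η x)) ^ 2 := by
  intro M hM
  refine ⟨CC M, fun d π η h1 h2 hπ hη => ?_⟩
  exact kl_main hM.le hπ hη
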